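import Pool.Agent.W558.T3.Base
import Pool.Agent.W418.LU.Torus

set_option autoImplicit false
set_option linter.unusedVariables false

open Pool.Agent.W558 Pool.Agent.H920R2

namespace Pool.Agent.W558

/-- Smooth charts over graded domains over a base with log smooth models. -/
theorem exists_LM_graded (k A : Type) [Field k] [CommRing A]
    [IsDomain A] [Algebra k A] [Algebra.FiniteType k A] (r : ℕ)
    (𝒜 : (Fin r → ℤ) → Submodule k A) [GradedAlgebra 𝒜] (hL : HasLogModels k (homFrac 𝒜)) :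
    ∃ (T I : Type) (_ : Finite T) (_ : Fintype I),
      Nonempty (LM (IsScalarTower.toAlgHom k A (FractionRing A)).range
        (IsScalarTower.toAlgHom k A (FractionRing A)).range T I) := by
  obtain ⟨n, z, m, h, a, hz, hh, hA⟩ := all_gr.{0} k A r 𝒜
  obtain ⟨N, L, H, x, Γ, hlog⟩ := hL m h hh
  obtain ⟨M, hΓ, -⟩ := hlog.exists_LM
  obtain ⟨T1, I1, i1, i2, M1, Γ1, hΓ1⟩ :=
    all_tor.{0} k (homFrac 𝒜) (FractionRing A) _ _ (Fin m) M h Γ hΓ n z hz
  have hmono := fn_mono hΓ1 (ι := Fin m)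
    (fun b => Sum.elim (fun b' => if b' = b then (1 : ℤ) else 0) (a b))
  have e1 : (fun i => ∏ b : Fin m ⊕ Fin n, (Sum.elim (fun b => algebraMap (homFrac 𝒜)
      (FractionRing A) (h b)) z) b ^ (Sum.elim (fun b' => if b' = i then (1 : ℤ) else 0) (a i)) b)
      = fun b => (h b : FractionRing A) * ∏ j, z j ^ a b j := by
    funext b
    rw [Fintype.prod_sum_type]
    congr 1
    rw [Finset.prod_eq_single b]
    · simp
    · intro b' _ hb'
      simp [hb']
    · simp
  rw [e1] at hmono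
  let g : A →ₐ[k] FractionRing A := IsScalarTower.toAlgHom k A (FractionRing A)
  have hfr : ∀ x : FractionRing A, ∃ a ∈ g.range, ∃ b ∈ g.range, b ≠ 0 ∧ x = a * b⁻¹ := by
    intro x
    obtain ⟨a, b, hb, rfl⟩ := IsFractionRing.div_surjective (A := A) x
    refine ⟨_, ⟨a, rfl⟩, _, ⟨b, rfl⟩, ?_, ?_⟩
    · exact (FaithfulSMul.algebraMap_eq_zero_iff A (FractionRing A)).not.2
        (nonZeroDivisors.ne_zero hb)
    · rw [div_eq_mul_inv]
      rfl
  obtain ⟨T2, I2, j1, j2, M2, Γ2, -, -⟩ := all_restr.{0} k (FractionRing A) T1 I1 (Fin m) M1 _ _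
    hmono Set.univ g.range (by rw [Set.image_univ]; exact hA) hfr
  exact ⟨T2, I2, j1, j2, ⟨M2⟩⟩

end Pool.Agent.W558
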